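import Pool.Agent.D0H11.GY.Fin
import Pool.Agent.D0H2.GM.Btm
import Pool.Agent.D0H20.GY.Pu2
import Pool.Agent.D0H70.GY.S1
import Pool.Agent.D0H87.GY.One2
import Pool.Agent.D0H22.GY.Cnt2
import Pool.Agent.D0H52.GM.Mom
import Pool.Agent.D0H52.GM.Dens
import Pool.Agent.D0H11.GO.FinY
import Pool.Agent.D0H70.GO.Eq
import Pool.Agent.D0H87.GO.Sel
import Pool.Agent.D0H52.GO.Pd
import Pool.Agent.D0H9.GO.Su1
import Pool.Agent.D0H9.GO.One1
import Pool.Agent.D0H3.GO.Cnty
import Pool.Agent.D0H7.GO.Puy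

/-!
# MP_f6c7cf_nt: generic multiples of the numbers of the question

Authors: helper11 (statement, assembly), helper2, helper3, helper7, helper9, helper17, helper20, helper22, helper52,
helper70, helper87 (modules).

(1) The number `2 ^ x + 2 ^ y + 2 ^ z + 1` of the question is replaced by `⌊α (2 ^ x + 2 ^ y + 2 ^ z)⌋ + 1`, with ONE real
parameter. For almost every `α > 0` there are infinitely many `N` such that a positive proportion of the odd
`n < N` has at least `c √N` quadruples `n = x² + y² + z² + 4 w²` for which this number is prime; this is the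
expected order. (2) The same for almost every `(α, β) ∈ (0, ∞)²` and `⌊α (2 ^ x + 2 ^ y) + β 2 ^ z⌋ + 1`.

Proof. (1) For two sums `m`, `m'` of three powers of two with separated exponents, `m' / m` not a power of two, the
pair `(⌊α m⌋ modulo e, ⌊α m'⌋ modulo e')` is equidistributed with a power of `m` saved when `α` varies in an interval
(`m' = 2 ^ k m + b` with `b` large but much smaller than `m`: `α m` is a fast variable and `α b` a slow one). So the
product of two Selberg sieves gives the bound `≪ 1 / M²` for the measure of the `α` with two primes (`M` the size of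
the exponents). (2) The map `(α, β) ↦ (L, L')` is linear and its determinant is divisible by a large power of two,
and Brun-Titchmarsh gives the same bound. The pairs of quadruples of the same `n` with the same ratios are few.
With the prime number theorem for the first moment, Paley-Zygmund gives a set of parameters of relative
measure at least an absolute constant, and the Lebesgue density theorem shows that the limes superior has full
measure.
-/

set_option autoImplicit false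

open Filter MeasureTheory

namespace Pool.Agent.Results.MP_f6c7cf_nt.GenericMultiples

/-- the number `⌊α (2 ^ x + 2 ^ y) + β 2 ^ z⌋ + 1`; for `α = β = 1` it is the number of the question -/
noncomputable def number (α β : ℝ) (x y z : ℕ) : ℕ := ⌊α * (2 ^ x + 2 ^ y) + β * 2 ^ z⌋₊ + 1

/-- the quadruples `n = x² + y² + z² + 4 w²` whose number is prime -/
def Adm (α β : ℝ) (n : ℕ) : Set (ℕ × ℕ × ℕ × ℕ) :=
  {q | q.1 ^ 2 + q.2.1 ^ 2 + q.2.2.1 ^ 2 + 4 * q.2.2.2 ^ 2 = n ∧ (number α β q.1 q.2.1 q.2.2.1).Prime}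

theorem number_one (x y z : ℕ) : number 1 1 x y z = 2 ^ x + 2 ^ y + 2 ^ z + 1 := by
  unfold number
  have e : (1 : ℝ) * (2 ^ x + 2 ^ y) + 1 * 2 ^ z = ((2 ^ x + 2 ^ y + 2 ^ z : ℕ) : ℝ) := by
    push_cast
    ring
  rw [e, Nat.floor_natCast]

/-- the map between the two forms of the quadruples -/
def tup (q : Fin 4 → ℕ) : ℕ × ℕ × ℕ × ℕ := (q 0, q 1, q 2, q 3)

theorem adm_card (a : ℝ × ℝ) (n : ℕ) : (Adm a.1 a.2 n).ncard =
    {q : Fin 4 → ℕ | Pool.Agent.D0H11.GY.nn q = n ∧ Pool.Agent.D0H11.GY.PP a q}.ncard := by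
  have e : Adm a.1 a.2 n = tup '' {q : Fin 4 → ℕ | Pool.Agent.D0H11.GY.nn q = n ∧ Pool.Agent.D0H11.GY.PP a q} := by
    ext t
    obtain ⟨x, y, z, w⟩ := t
    constructor
    · rintro ⟨h1, h2⟩
      exact ⟨![x, y, z, w], ⟨h1, h2⟩, rfl⟩
    · rintro ⟨q, ⟨h1, h2⟩, h3⟩
      unfold tup at h3
      simp only [Prod.mk.injEq] at h3
      obtain ⟨rfl, rfl, rfl, rfl⟩ := h3
      exact ⟨h1, h2⟩
  rw [e, Set.ncard_image_of_injective]
  intro q q' h
  unfold tup at h
  simp only [Prod.mk.injEq] at h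
  funext i
  fin_cases i
  · exact h.1
  · exact h.2.1
  · exact h.2.2.1
  · exact h.2.2.2

theorem adm_card' (α : ℝ) (n : ℕ) : (Adm α α n).ncard =
    {q : Fin 4 → ℕ | Pool.Agent.D0H11.GY.nn q = n ∧ Pool.Agent.D0H11.GO.PY α q}.ncard := by
  rw [adm_card (α, α) n]
  congr 1
  ext q
  have e : Pool.Agent.D0H11.GY.PP (α, α) q ↔ Pool.Agent.D0H11.GO.PY α q := by
    unfold Pool.Agent.D0H11.GY.PP Pool.Agent.D0H11.GY.LL Pool.Agent.D0H11.GO.PY
    simp only
    rw [← mul_add]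
  simp only [Set.mem_ofPred_eq, e]

theorem result : (∃ c : ℝ, 0 < c ∧ ∀ᵐ α : ℝ, 0 < α → ∃ᶠ N : ℕ in atTop,
      c * N ≤ ({n : ℕ | n < N ∧ Odd n ∧ c * Real.sqrt N ≤ ((Adm α α n).ncard : ℝ)}.ncard : ℝ)) ∧
    (∃ c : ℝ, 0 < c ∧ ∀ᵐ a : ℝ × ℝ, 0 < a.1 → 0 < a.2 → ∃ᶠ N : ℕ in atTop,
      c * N ≤ ({n : ℕ | n < N ∧ Odd n ∧ c * Real.sqrt N ≤ ((Adm a.1 a.2 n).ncard : ℝ)}.ncard : ℝ)) ∧
    ∀ x y z : ℕ, number 1 1 x y z = 2 ^ x + 2 ^ y + 2 ^ z + 1 := by
  classical
  refine ⟨?_, ?_, number_one⟩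
  · have hPD := Pool.Agent.D0H52.GO.t_PD Pool.Agent.D0H70.GO.t_EQ Pool.Agent.D0H87.GO.t_SEL
    obtain ⟨c, hc, h⟩ := Pool.Agent.D0H11.GO.mainY Pool.Agent.D0H22.GY.t_CNT2 Pool.Agent.D0H3.GO.t_CNTY
      (Pool.Agent.D0H7.GO.t_PUY hPD) (Pool.Agent.D0H9.GO.t_SU1 Pool.Agent.D0H2.GM.t_BTM) Pool.Agent.D0H9.GO.t_ONE1
      Pool.Agent.D0H52.GM.t_MOM Pool.Agent.D0H52.GM.t_DENS
    refine ⟨c, hc, ?_⟩
    filter_upwards [h] with α hα h1
    refine (hα h1).mono fun N hN => ?_
    refine hN.trans (le_of_eq ?_)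
    norm_cast
    rw [← Set.ncard_coe_finset]
    congr 1
    ext n
    simp only [Finset.coe_filter, Finset.mem_range, Set.mem_ofPred_eq, adm_card']
  · obtain ⟨c, hc, h⟩ := Pool.Agent.D0H11.GY.main Pool.Agent.D0H22.GY.t_CNT2 (Pool.Agent.D0H20.GY.t_PU2 Pool.Agent.D0H2.GM.t_BTM)
      (Pool.Agent.D0H70.GY.t_S1 Pool.Agent.D0H2.GM.t_BTM) Pool.Agent.D0H87.GY.t_ONE2 Pool.Agent.D0H52.GM.t_MOM
      Pool.Agent.D0H52.GM.t_DENS
    refine ⟨c, hc, ?_⟩
    filter_upwards [h] with a ha h1 h2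
    refine (ha h1 h2).mono fun N hN => ?_
    refine hN.trans (le_of_eq ?_)
    norm_cast
    rw [← Set.ncard_coe_finset]
    congr 1
    ext n
    simp only [Finset.coe_filter, Finset.mem_range, Set.mem_ofPred_eq, adm_card]

end Pool.Agent.Results.MP_f6c7cf_nt.GenericMultiples
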