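import Mathlib
import Pool.Agent.D0H15.GS.Law
import Pool.Agent.N719.SP.MainU
import Pool.Agent.N719.SP.Main

set_option autoImplicit false

/-!
# MP_f6c7cf_nt: random models of the primes with a growing sieve

The question is whether every odd `n` is of the form `x² + y² + z² + 4w²` with natural numbers such that
`2 ^ x + 2 ^ y + 2 ^ z + 1` is prime.  Here the primes are replaced by a random set with a growing sieve:
the integers are decided one after the other, no `m` with a prime factor `q ≤ z(m)` in a given set `P` of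
primes is chosen, and the conditional probability of choosing `m + 1` (without such prime factors) given the
past is asymptotic to `∏_{q ∈ P, q ≤ z(m + 1)} (1 - 1/q)⁻¹ / log m`.  No independence and no rate is assumed.
The sieve may reach `c L log L / log log L`, or `c L²` for the `n` without certain square factors, where
`L = log log m`.  The conclusion is the asymptotic formula for the number of quadruples, for all large odd
`n` which are regular for `P`; if `P` contains only primes `q ≠ 41, 113` for which the order of `2` modulo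
`q` is not divisible by `l²` for any prime `l ≥ 5`, then all odd `n` are regular.
-/

open MeasureTheory Filter
open scoped Topology

namespace Pool.Agent.Results.MP_f6c7cf_nt.GrowingSieveModels

/-- the quadruples of natural numbers with `n = x² + y² + z² + 4w²` -/
def quads (n : ℕ) : Set (ℕ × ℕ × ℕ × ℕ) :=
  {v | n = v.1 ^ 2 + v.2.1 ^ 2 + v.2.2.1 ^ 2 + 4 * v.2.2.2 ^ 2}

/-- the value `2 ^ x + 2 ^ y + 2 ^ z + 1` -/
def form (v : ℕ × ℕ × ℕ × ℕ) : ℕ := 2 ^ v.1 + 2 ^ v.2.1 + 2 ^ v.2.2.1 + 1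

/-- the number of quadruples of natural numbers with `n = x² + y² + z² + 4w²` for which
`2 ^ x + 2 ^ y + 2 ^ z + 1` belongs to `S` -/
noncomputable def R (S : Set ℕ) (n : ℕ) : ℕ := {v | v ∈ quads n ∧ form v ∈ S}.ncard

/-- `m` has no prime factor `q ≤ z m` in `P` -/
def Rough (P : Set ℕ) (z : ℕ → ℕ) (m : ℕ) : Prop := ∀ q, q.Prime → q ∈ P → q ≤ z m → ¬ q ∣ m

open Classical in
/-- `∏ (1 - 1/q)⁻¹` over the primes `q ≤ x` in `P` -/
noncomputable def W (P : Set ℕ) (x : ℕ) : ℝ :=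
  ∏ q ∈ (Finset.Icc 1 x).filter (fun q => q.Prime ∧ q ∈ P), (1 - (q : ℝ)⁻¹)⁻¹

open Classical in
/-- the density of the model at `m`: `W (z m) / log m` if `m` has no prime factor `q ≤ z m` in `P`, and `0`
otherwise -/
noncomputable def rho (P : Set ℕ) (z : ℕ → ℕ) (m : ℕ) : ℝ :=
  if Rough P z m then W P (z m) / Real.log m else 0

/-- the expected number of quadruples: the sum of `rho (2 ^ x + 2 ^ y + 2 ^ z + 1)` over all quadruples
with `n = x² + y² + z² + 4w²` -/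
noncomputable def E (P : Set ℕ) (z : ℕ → ℕ) (n : ℕ) : ℝ := ∑ᶠ v ∈ quads n, rho P z (form v)

/-- `q` is exceptional for `n` (first kind, as in the starting result SquareOrders) -/
def ExcA (n q : ℕ) : Prop :=
  (∃ l : ℕ, l.Prime ∧ 5 ≤ l ∧ l ^ 2 ∣ orderOf (2 : ZMod q) ∧
    ((n % 4 = 1 ∧ l % 4 = 3 ∧ (l : ℤ) ∣ 9 * n - 8) ∨ (n % 4 = 3 ∧ l % 3 = 2 ∧ (l : ℤ) ∣ 3 * n - 8))) ∨
  ((n % 4 = 1 ∧ n % 7 = 4 ∧ q = 113) ∨ (n % 4 = 3 ∧ n % 5 = 1 ∧ q = 41))

/-- `q` is exceptional for `n` (second kind, as in the starting result ExceptionalPrimes) -/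
def ExcB (n q : ℕ) : Prop :=
  (∃ l : ℕ, l.Prime ∧ 5 ≤ l ∧ l ^ 2 ∣ orderOf (2 : ZMod q) ∧
    ((n % 4 = 1 ∧ l % 3 = 2 ∧ (l : ℤ) ∣ 3 * n - 2) ∨ (n % 4 = 3 ∧ l % 4 = 3 ∧ (l : ℤ) ∣ 9 * n - 2))) ∨
  ((¬ ∃ k j : ℕ, n = 9 ^ k * (3 * j + 1) + 2) ∧ (¬ ∃ k j : ℕ, n = 4 ^ (k + 1) * (8 * j + 1) + 9) ∧
    ((n % 3 = 1 ∧ q = 7) ∨ (n % 3 = 2 ∧ n % 9 ≠ 2 ∧ q = 73) ∨ (n % 9 = 2 ∧ q = 262657)))

/-- `n` is regular for `P`: no odd prime `q ≤ (log n) ^ 2` in `P` is exceptional of the first kind, or none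
is exceptional of the second kind -/
def Regular (P : Set ℕ) (n : ℕ) : Prop :=
  (∀ q ∈ P, q.Prime → q ≠ 2 → (q : ℝ) ≤ Real.log n ^ 2 → ¬ ExcA n q) ∨
  (∀ q ∈ P, q.Prime → q ≠ 2 → (q : ℝ) ≤ Real.log n ^ 2 → ¬ ExcB n q)

/-- a random set `{n | ω ∈ S n}` adapted to the filtration `ℱ`, sieved by the primes `q ≤ z n` in `P`, with
conditional densities asymptotic to `W P (z (n + 1)) / log n` -/
structure Model {Ω : Type} [mΩ : MeasurableSpace Ω] (μ : Measure Ω) (ℱ : Filtration ℕ mΩ) (S : ℕ → Set Ω)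
    (P : Set ℕ) (z : ℕ → ℕ) : Prop where
  adapted : ∀ n, MeasurableSet[ℱ n] (S n)
  sieved : ∀ n, ¬ Rough P z n → S n = ∅
  density : ∀ᵐ ω ∂μ, Tendsto (fun n : ℕ =>
    (μ[(S (n + 1)).indicator (fun _ => (1 : ℝ)) | ℱ n]) ω * Real.log n / W P (z (n + 1)))
    (atTop ⊓ 𝓟 {n : ℕ | Rough P z (n + 1)}) (𝓝 1)

/-- the conclusion for the `n` with the property `G`: the expected number is at least `n ^ (1/2 - ε)`, and
almost surely the number of quadruples is asymptotic to the expected number and at least `n ^ (1/2 - ε)` -/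
def Law {Ω : Type} [MeasurableSpace Ω] (μ : Measure Ω) (S : ℕ → Set Ω) (P : Set ℕ) (z : ℕ → ℕ) (ε : ℝ)
    (G : ℕ → Prop) : Prop :=
  (∀ᶠ n : ℕ in atTop, G n → (n : ℝ) ^ (1 / 2 - ε) ≤ E P z n) ∧
  (∀ᵐ ω ∂μ, Tendsto (fun n : ℕ => (R {k | ω ∈ S k} n : ℝ) / E P z n) (atTop ⊓ 𝓟 {n : ℕ | G n}) (𝓝 1)) ∧
  (∀ᵐ ω ∂μ, ∀ᶠ n : ℕ in atTop, G n → (n : ℝ) ^ (1 / 2 - ε) ≤ R {k | ω ∈ S k} n)

open Pool.Agent.R494.SPL Pool.Agent.D0H15.GS

lemma quads_eq (n : ℕ) : quads n = ((quad3 n : Finset (ℕ × ℕ × ℕ × ℕ)) : Set (ℕ × ℕ × ℕ × ℕ)) := by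
  ext v
  rw [Finset.mem_coe, mem_quad3]
  rfl

lemma E_eq (P : Set ℕ) (z : ℕ → ℕ) (n : ℕ) :
    E P z n = ∑ v ∈ quad3 n, Pool.Agent.D0H15.GS.rho P z (val3 v) := by
  unfold E
  rw [quads_eq, finsum_mem_coe_finset]
  rfl

lemma R_eq {Ω : Type} {A : ℕ → Set Ω} (ω : Ω) (n : ℕ) :
    (R {k : ℕ | ω ∈ A k} n : ℝ) = ∑ v ∈ quad3 n, Pool.Agent.R528.RM.In A (val3 v) ω := by
  classical
  have h0 : {v | v ∈ quads n ∧ form v ∈ {k : ℕ | ω ∈ A k}} =
      (((quad3 n).filter (fun v => ω ∈ A (val3 v)) : Finset (ℕ × ℕ × ℕ × ℕ)) : Set (ℕ × ℕ × ℕ × ℕ)) := by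
    ext v
    rw [Set.mem_ofPred_eq, quads_eq, Finset.mem_coe, Finset.mem_coe, Finset.mem_filter]
    rfl
  unfold R
  rw [h0, Set.ncard_coe_finset, Finset.card_filter]
  push_cast
  refine Finset.sum_congr rfl fun v _ => ?_
  unfold Pool.Agent.R528.RM.In
  by_cases h : ω ∈ A (val3 v)
  · simp [h]
  · simp [h]

/-- the law from the lower bound -/
lemma law_of {Ω : Type} [mΩ : MeasurableSpace Ω] {μ : Measure Ω} [IsProbabilityMeasure μ] {ℱ : Filtration ℕ mΩ}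
    {S : ℕ → Set Ω} {P : Set ℕ} {z : ℕ → ℕ} (hM : Model μ ℱ S P z) (C : ℝ)
    (hz : ∀ᶠ n : ℕ in atTop, (z n : ℝ) ≤ C * Real.log (Real.log n) ^ 2) (ε : ℝ) (G : ℕ → Prop)
    (hlow : ∀ e : ℝ, 0 < e → e ≤ 1 / 4 → (e = min ε (1 / 4) ∨ e = 1 / 4) →
      ∀ᶠ n : ℕ in atTop, G n → 2 * (n : ℝ) ^ (1 / 2 - e) ≤
        ∑ v ∈ big n, Pool.Agent.D0H15.GS.rho1 P z (val3 v)) (hε : 0 < ε) :
    Law μ S P z ε G := by
  classical
  have hV := Pool.Agent.D0H15.GS.short P _ z hz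
  have hprof := Pool.Agent.D0H15.GS.profile (μ := μ) (ℱ := ℱ) (A := S) P z hV hM.sieved hM.density
  have hlow4 : ∀ᶠ n : ℕ in atTop, G n → (n : ℝ) ^ (1 / 4 : ℝ) ≤
      ∑ v ∈ big n, Pool.Agent.D0H15.GS.rho1 P z (val3 v) := by
    filter_upwards [hlow (1 / 4) (by norm_num) le_rfl (Or.inr rfl)] with n h hn
    have h1 := h hn
    have h2 : (n : ℝ) ^ (1 / 2 - 1 / 4 : ℝ) = (n : ℝ) ^ (1 / 4 : ℝ) := by norm_num
    rw [h2] at h1
    have h3 : 0 ≤ (n : ℝ) ^ (1 / 4 : ℝ) := by positivity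
    linarith
  have hlaw := Pool.Agent.D0H15.GS.lawG (μ := μ) (ℱ := ℱ) (A := S) hM.adapted P z hprof G hlow4
  obtain ⟨B, hB1, hB⟩ := rho_bound P z hV
  obtain ⟨m1, hm1⟩ := eventually_atTop.1 hV
  have hsplit : ∀ n : ℕ, ∀ f : ℕ × ℕ × ℕ × ℕ → ℝ, ∑ v ∈ quad3 n, f v =
      ∑ v ∈ (quad3 n).filter (fun v => val3 v < n), f v + ∑ v ∈ big n, f v :=
    fun n f => (Finset.sum_filter_add_sum_filter_not _ _ _).symm
  have hbig : ∀ᶠ n : ℕ in atTop, ∑ v ∈ big n, Pool.Agent.D0H15.GS.rho P z (val3 v) =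
      ∑ v ∈ big n, Pool.Agent.D0H15.GS.rho1 P z (val3 v) := by
    filter_upwards [eventually_ge_atTop m1] with n hn
    refine Finset.sum_congr rfl fun v hv => ?_
    have h1 : ¬ val3 v < n := (Finset.mem_filter.1 hv).2
    rw [rho1_eq P z _ (hm1 _ (by omega))]
  -- the expected number and the sum over the large values
  have hE : ∀ᶠ n : ℕ in atTop, ∑ v ∈ big n, Pool.Agent.D0H15.GS.rho1 P z (val3 v) ≤ E P z n ∧
      E P z n ≤ ∑ v ∈ big n, Pool.Agent.D0H15.GS.rho1 P z (val3 v) + B * (27 * Real.log n ^ 3) := by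
    filter_upwards [hbig, small_card] with n h1 h2
    rw [E_eq, hsplit n, h1]
    have h3 : 0 ≤ ∑ v ∈ (quad3 n).filter (fun v => val3 v < n), Pool.Agent.D0H15.GS.rho P z (val3 v) :=
      Finset.sum_nonneg fun v _ => rho_nonneg P z _
    have h4 : ∑ v ∈ (quad3 n).filter (fun v => val3 v < n), Pool.Agent.D0H15.GS.rho P z (val3 v) ≤
        B * (27 * Real.log n ^ 3) := by
      refine (Finset.sum_le_card_nsmul _ _ B fun v _ => hB _).trans ?_
      rw [nsmul_eq_mul, mul_comm]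
      exact mul_le_mul_of_nonneg_left h2 (by linarith)
    constructor <;> linarith
  have key : ∀ᵐ ω ∂μ, ∀ η : ℝ, 0 < η → ∀ᶠ n : ℕ in atTop, G n →
      |(R {k | ω ∈ S k} n : ℝ) - E P z n| ≤ η * E P z n := by
    filter_upwards [hlaw] with ω hω η hη
    filter_upwards [hω (η / 2) (by positivity), hE, hlow4, small_card,
      log_small ((1 + B) * 27 * (2 / η)) (1 / 4) (by norm_num)] with n g1 g2 g3 g4 g5 hn
    have k1 := g1 hn
    have k3 := g3 hn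
    rw [R_eq ω n, hsplit n]
    have s1 : 0 ≤ ∑ v ∈ (quad3 n).filter (fun v => val3 v < n), Pool.Agent.R528.RM.In S (val3 v) ω :=
      Finset.sum_nonneg fun v _ => Pool.Agent.R528.RM.In_nonneg _ _
    have s2 : ∑ v ∈ (quad3 n).filter (fun v => val3 v < n), Pool.Agent.R528.RM.In S (val3 v) ω ≤
        27 * Real.log n ^ 3 := by
      refine le_trans ?_ g4
      refine (Finset.sum_le_card_nsmul _ _ 1 fun v _ => Pool.Agent.R528.RM.In_le _ _).trans ?_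
      simp
    have s3 : (1 + B) * 27 * Real.log n ^ 3 ≤ η / 2 * (n : ℝ) ^ (1 / 4 : ℝ) := by
      have h1 : η / 2 * ((1 + B) * 27 * (2 / η) * Real.log n ^ 3) ≤ η / 2 * (n : ℝ) ^ (1 / 4 : ℝ) :=
        mul_le_mul_of_nonneg_left g5 (by positivity)
      refine le_trans (le_of_eq ?_) h1
      field_simp
    obtain ⟨a1, a2⟩ := abs_le.1 k1
    obtain ⟨b1, b2⟩ := g2
    have s4 : η / 2 * (n : ℝ) ^ (1 / 4 : ℝ) ≤
        η / 2 * ∑ v ∈ big n, Pool.Agent.D0H15.GS.rho1 P z (val3 v) :=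
      mul_le_mul_of_nonneg_left k3 (by positivity)
    have s5 : η * ∑ v ∈ big n, Pool.Agent.D0H15.GS.rho1 P z (val3 v) ≤ η * E P z n :=
      mul_le_mul_of_nonneg_left b1 hη.le
    have s7 : 0 ≤ 27 * Real.log n ^ 3 := s1.trans s2
    have s6 : 0 ≤ B * (27 * Real.log n ^ 3) := mul_nonneg (by linarith) s7
    rw [abs_le]
    constructor <;> nlinarith
  have hElow : ∀ᶠ n : ℕ in atTop, G n → 2 * (n : ℝ) ^ (1 / 2 - ε) ≤ E P z n := by
    filter_upwards [hE, hlow (min ε (1 / 4)) (lt_min hε (by norm_num)) (min_le_right _ _) (Or.inl rfl),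
      eventually_ge_atTop 1] with n h1 h2 h3 hn
    have h4 := h2 hn
    have hn1 : (1 : ℝ) ≤ n := by exact_mod_cast h3
    have h5 : (n : ℝ) ^ (1 / 2 - ε) ≤ (n : ℝ) ^ (1 / 2 - min ε (1 / 4)) := by
      apply Real.rpow_le_rpow_of_exponent_le hn1
      have := min_le_left ε (1 / 4 : ℝ)
      linarith
    linarith [h1.1]
  refine ⟨?_, ?_, ?_⟩
  · filter_upwards [hElow, eventually_ge_atTop 1] with n h1 h2 hn
    have h3 : (0 : ℝ) < (n : ℝ) ^ (1 / 2 - ε) := Real.rpow_pos_of_pos (by exact_mod_cast h2) _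
    linarith [h1 hn]
  · filter_upwards [key] with ω hω
    rw [Metric.tendsto_nhds]
    intro η hη
    rw [eventually_inf_principal]
    filter_upwards [hω (η / 2) (by positivity), hElow, eventually_ge_atTop 1] with n h1 h2 h3 hn
    have hn' : G n := hn
    have h4 : (0 : ℝ) < (n : ℝ) ^ (1 / 2 - ε) := Real.rpow_pos_of_pos (by exact_mod_cast h3) _
    have h5 : 0 < E P z n := by linarith [h2 hn']
    rw [Real.dist_eq, show (R {k | ω ∈ S k} n : ℝ) / E P z n - 1 = ((R {k | ω ∈ S k} n : ℝ) - E P z n) / E P z n by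
      field_simp, abs_div, abs_of_pos h5, div_lt_iff₀ h5]
    have := h1 hn'
    nlinarith
  · filter_upwards [key] with ω hω
    filter_upwards [hω (1 / 2) (by norm_num), hElow] with n h1 h2 hn
    have h3 := (abs_le.1 (h1 hn)).1
    have h4 := h2 hn
    linarith

/-- from the counting theorems to rough quadruples -/
lemma core (ε : ℝ) (F : ℕ → ℝ) (H : ℕ → Prop) (c₁ c₂ c : ℝ) (hc1 : c ≤ c₁) (hc2 : c ≤ c₂)
    (hA : ∃ n0 : ℕ, ∀ n : ℕ, n0 ≤ n → Odd n → H n → ∃ S : Finset (ℕ × ℕ × ℕ × ℕ),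
      (n : ℝ) ^ (1 - ε) ≤ (S.card : ℝ) ∧ ∀ x y z w : ℕ, (x, y, z, w) ∈ S →
        n = x ^ 2 + y ^ 2 + z ^ 2 + 4 * w ^ 2 ∧ ∀ q : ℕ, q.Prime → q ∣ 2 ^ x + 2 ^ y + 2 ^ z + 1 →
          (q : ℝ) ≤ c₁ * F n → q ≠ 2 ∧ ExcA n q)
    (hB : ∃ n0 : ℕ, ∀ n : ℕ, n0 ≤ n → Odd n → H n → ∃ S : Finset (ℕ × ℕ × ℕ × ℕ),
      (n : ℝ) ^ (1 - ε) ≤ (S.card : ℝ) ∧ ∀ x y z w : ℕ, (x, y, z, w) ∈ S →
        n = x ^ 2 + y ^ 2 + z ^ 2 + 4 * w ^ 2 ∧ ∀ q : ℕ, q.Prime → q ∣ 2 ^ x + 2 ^ y + 2 ^ z + 1 →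
          (q : ℝ) ≤ c₂ * F n → q ≠ 2 ∧ ExcB n q)
    (P : Set ℕ) (z : ℕ → ℕ)
    (hz : ∀ᶠ n : ℕ in atTop, ∀ v ∈ quad3 n, ¬ val3 v < n → (z (val3 v) : ℝ) ≤ c * F n)
    (hF : ∀ᶠ n : ℕ in atTop, 0 ≤ F n ∧ c * F n ≤ Real.log n ^ 2) :
    ∀ᶠ n : ℕ in atTop, (Odd n ∧ Regular P n ∧ H n) → ∃ T ⊆ quad3 n, (n : ℝ) ^ (1 - ε) ≤ (T.card : ℝ) ∧
      ∀ v ∈ T, ¬ val3 v < n → Pool.Agent.D0H15.GS.Rough P z (val3 v) := by
  obtain ⟨n1, hA⟩ := hA
  obtain ⟨n2, hB⟩ := hB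
  filter_upwards [hz, hF, eventually_ge_atTop n1, eventually_ge_atTop n2] with n h1 h2 h3 h4 hn
  obtain ⟨hno, hreg, hH⟩ := hn
  obtain ⟨f1, f2⟩ := h2
  rcases hreg with hreg | hreg
  · obtain ⟨T, hT1, hT2⟩ := hA n h3 hno hH
    have hsub : T ⊆ quad3 n := by
      rintro ⟨x, y, a, b⟩ hX
      exact mem_quad3.2 (hT2 x y a b hX).1
    refine ⟨T, hsub, hT1, ?_⟩
    rintro ⟨x, y, a, b⟩ hX hbig q hq hqP hqz hqd
    have g1 := h1 _ (hsub hX) hbig
    have g2 : (q : ℝ) ≤ z (val3 (x, y, a, b)) := by exact_mod_cast hqz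
    have g3 : c * F n ≤ c₁ * F n := mul_le_mul_of_nonneg_right hc1 f1
    obtain ⟨k1, k2⟩ := (hT2 x y a b hX).2 q hq hqd (by linarith)
    exact hreg q hqP hq k1 (by linarith) k2
  · obtain ⟨T, hT1, hT2⟩ := hB n h4 hno hH
    have hsub : T ⊆ quad3 n := by
      rintro ⟨x, y, a, b⟩ hX
      exact mem_quad3.2 (hT2 x y a b hX).1
    refine ⟨T, hsub, hT1, ?_⟩
    rintro ⟨x, y, a, b⟩ hX hbig q hq hqP hqz hqd
    have g1 := h1 _ (hsub hX) hbig
    have g2 : (q : ℝ) ≤ z (val3 (x, y, a, b)) := by exact_mod_cast hqz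
    have g3 : c * F n ≤ c₂ * F n := mul_le_mul_of_nonneg_right hc2 f1
    obtain ⟨k1, k2⟩ := (hT2 x y a b hX).2 q hq hqd (by linarith)
    exact hreg q hqP hq k1 (by linarith) k2

/-- `log log` of the large values -/
lemma loglog_val {n : ℕ} (hn : 64 ≤ n) {v : ℕ × ℕ × ℕ × ℕ} (hv : v ∈ quad3 n) :
    0 ≤ Real.log (Real.log (val3 v : ℝ)) ∧ Real.log (Real.log (val3 v : ℝ)) ≤ Real.log n := by
  obtain ⟨g2, g3⟩ := log_val3 (by omega) hv
  have hn64 : (64 : ℝ) ≤ n := by exact_mod_cast hn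
  have hn0 : (0 : ℝ) < n := by linarith
  refine ⟨Real.log_nonneg g2, ?_⟩
  refine (Real.log_le_log (by linarith) g3).trans ?_
  rw [Real.log_mul (by norm_num) (Real.rpow_pos_of_pos hn0 _).ne', Real.log_rpow hn0]
  have h5 : Real.log 64 ≤ Real.log n := Real.log_le_log (by norm_num) hn64
  have h6 : Real.log 64 = 3 * Real.log 4 := by
    rw [show (64 : ℝ) = 4 ^ 3 by norm_num, Real.log_pow]
    norm_num
  have h7 : 0 ≤ Real.log 4 := Real.log_nonneg (by norm_num)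
  linarith

lemma range_mono {u u' : ℝ} (hu : 0 < u) (h : Real.exp 1 ≤ Real.log u) (h2 : u ≤ u') :
    u * Real.log u / Real.log (Real.log u) ≤ u' * Real.log u' / Real.log (Real.log u') := by
  have h3 : Real.log u ≤ Real.log u' := Real.log_le_log hu h2
  have h4 := Real.log_div_self_antitoneOn (Set.mem_ofPred.2 h) (Set.mem_ofPred.2 (h.trans h3)) h3
  simp only at h4
  have h0 : 0 < Real.log u := (Real.exp_pos 1).trans_le h
  have h0' : 0 < Real.log u' := h0.trans_le h3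
  have h5 : 1 ≤ Real.log (Real.log u) := by
    rw [Real.le_log_iff_exp_le h0]
    exact h
  have h5' : 1 ≤ Real.log (Real.log u') := by
    rw [Real.le_log_iff_exp_le h0']
    exact h.trans h3
  have h6 : Real.log u / Real.log (Real.log u) ≤ Real.log u' / Real.log (Real.log u') := by
    rw [div_le_div_iff₀ h0' h0] at h4
    rw [div_le_div_iff₀ (by linarith) (by linarith)]
    linarith
  rw [mul_div_assoc, mul_div_assoc]
  exact mul_le_mul h2 h6 (div_nonneg h0.le (by linarith)) (hu.le.trans h2)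

lemma logN : Tendsto (fun n : ℕ => Real.log (n : ℝ)) atTop atTop :=
  Real.tendsto_log_atTop.comp tendsto_natCast_atTop_atTop

lemma loglogN : Tendsto (fun n : ℕ => Real.log (Real.log (n : ℝ))) atTop atTop :=
  Real.tendsto_log_atTop.comp logN

lemma logloglogN : Tendsto (fun n : ℕ => Real.log (Real.log (Real.log (n : ℝ)))) atTop atTop :=
  Real.tendsto_log_atTop.comp loglogN

lemma exists_c (s : List ℝ) (hs : ∀ a ∈ s, 0 < a) : ∃ c : ℝ, 0 < c ∧ c ≤ 1 ∧ ∀ a ∈ s, c ≤ a := by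
  induction s with
  | nil => exact ⟨1, one_pos, le_rfl, by simp⟩
  | cons b t ih =>
    obtain ⟨c, h1, h2, h3⟩ := ih (fun a ha => hs a (List.mem_cons_of_mem _ ha))
    refine ⟨min b c, lt_min (hs b List.mem_cons_self) h1, (min_le_right _ _).trans h2, ?_⟩
    intro a ha
    rcases List.mem_cons.1 ha with rfl | ha
    · exact min_le_left _ _
    · exact (min_le_right _ _).trans (h3 a ha)

/-- **Growing sieves.**  For every `ε > 0` there is `c > 0` such that for every set `P` of primes, all sieve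
levels `z(m)` and every model (a random set adapted to a filtration without elements which have a prime factor
`q ≤ z(m)` in `P`, with conditional densities asymptotic to `∏_{q ∈ P, q ≤ z(m)} (1 - 1/q)⁻¹ / log m` at the other
`m`): with `L = log log m`,
(1) if `z(m) ≤ c L log L / log log L` for all large `m`, the law holds for the odd `n` regular for `P`;
(2) if `z(m) ≤ c L ^ 2` for all large `m`, the law holds for the odd `n` regular for `P` which are not divisible by the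
square of a prime `l` with `c log n < l ≤ (log n) ^ 2`;
(3) if `P` contains neither `41` nor `113` and if for the odd primes `q` of `P` the order of `2` modulo `q` is not
divisible by `l ^ 2` for a prime `l ≥ 5` then every `n` is regular for `P`;
(4) every large `n ≡ 1 mod 4` for which `9n - 8` has no prime factor `l ≡ 3 mod 4`, `l ≤ log n`, and every large
`n ≡ 3 mod 4` for which `3n - 8` has no prime factor `l ≡ 2 mod 3`, `5 ≤ l ≤ log n`, is regular for every `P`.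
The law for a set of `n` says: the expected number is at least `n ^ (1/2 - ε)` for all large `n` of the set; almost
surely the number of quadruples divided by the expected number tends to `1` along the set; almost surely it is at
least `n ^ (1/2 - ε)` for all large `n` of the set. -/
theorem result (ε : ℝ) (hε : 0 < ε) : ∃ c : ℝ, 0 < c ∧ ∀ (P : Set ℕ) (z : ℕ → ℕ),
    (∀ {Ω : Type} [mΩ : MeasurableSpace Ω] (μ : Measure Ω) [IsProbabilityMeasure μ]
      (ℱ : Filtration ℕ mΩ) (S : ℕ → Set Ω), Model μ ℱ S P z →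
      ((∀ᶠ m : ℕ in atTop, (z m : ℝ) ≤ c * (Real.log (Real.log m) * Real.log (Real.log (Real.log m)) /
          Real.log (Real.log (Real.log (Real.log m))))) →
        Law μ S P z ε (fun n => Odd n ∧ Regular P n)) ∧
      ((∀ᶠ m : ℕ in atTop, (z m : ℝ) ≤ c * Real.log (Real.log m) ^ 2) →
        Law μ S P z ε (fun n => Odd n ∧ Regular P n ∧
          ∀ l : ℕ, l.Prime → c * Real.log n < l → (l : ℝ) ≤ Real.log n ^ 2 → ¬ l ^ 2 ∣ n))) ∧
    ((41 ∉ P ∧ 113 ∉ P ∧ ∀ q ∈ P, q.Prime → q ≠ 2 → ∀ l : ℕ, l.Prime → 5 ≤ l → ¬ l ^ 2 ∣ orderOf (2 : ZMod q)) →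
      ∀ n, Regular P n) ∧
    (∀ᶠ n : ℕ in atTop,
      ((n % 4 = 1 ∧ ∀ l : ℕ, l.Prime → l % 4 = 3 → (l : ℝ) ≤ Real.log n → ¬ (l : ℤ) ∣ 9 * n - 8) ∨
      (n % 4 = 3 ∧ ∀ l : ℕ, l.Prime → 5 ≤ l → l % 3 = 2 → (l : ℝ) ≤ Real.log n → ¬ (l : ℤ) ∣ 3 * n - 8)) →
      Regular P n) := by
  classical
  -- the constants
  have hm : 0 < min ε (1 / 4) := lt_min hε (by norm_num)
  obtain ⟨a1, ha1, hA1⟩ := Pool.Agent.N719.SP.mainAU (min ε (1 / 4) / 2) (by positivity)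
  obtain ⟨a2, ha2, hA2⟩ := Pool.Agent.N719.SP.mainAU (1 / 4 / 2) (by positivity)
  obtain ⟨a3, ha3, hA3⟩ := Pool.Agent.N719.SP.mainA (min ε (1 / 4) / 2) (by positivity)
  obtain ⟨a4, ha4, hA4⟩ := Pool.Agent.N719.SP.mainA (1 / 4 / 2) (by positivity)
  obtain ⟨b1, hb1, hB1⟩ := Pool.Agent.N719.SP.mainBU (min ε (1 / 4) / 2) (by positivity)
  obtain ⟨b2, hb2, hB2⟩ := Pool.Agent.N719.SP.mainBU (1 / 4 / 2) (by positivity)
  obtain ⟨b3, hb3, hB3⟩ := Pool.Agent.N719.SP.mainB (min ε (1 / 4) / 2) (by positivity)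
  obtain ⟨b4, hb4, hB4⟩ := Pool.Agent.N719.SP.mainB (1 / 4 / 2) (by positivity)
  obtain ⟨c, hc0, hc1, hca1, hca2, hca3, hca4, hcb1, hcb2, hcb3, hcb4⟩ : ∃ c : ℝ, 0 < c ∧ c ≤ 1 ∧ c ≤ a1 ∧ c ≤ a2 ∧
      c ≤ a3 ∧ c ≤ a4 ∧ c ≤ b1 ∧ c ≤ b2 ∧ c ≤ b3 ∧ c ≤ b4 := by
    obtain ⟨c, h1, h2, h3⟩ := exists_c [a1, a2, a3, a4, b1, b2, b3, b4] (by
      intro a ha
      simp only [List.mem_cons, List.not_mem_nil, or_false] at ha
      rcases ha with rfl | rfl | rfl | rfl | rfl | rfl | rfl | rfl <;> assumption)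
    exact ⟨c, h1, h2, h3 a1 (by simp), h3 a2 (by simp), h3 a3 (by simp), h3 a4 (by simp), h3 b1 (by simp),
      h3 b2 (by simp), h3 b3 (by simp), h3 b4 (by simp)⟩
  refine ⟨c, hc0, fun P z => ⟨?_, ?_, ?_⟩⟩
  · intro Ω mΩ μ hμ ℱ S hM
    constructor
    · intro hz
      -- range A
      have hzz : ∀ᶠ n : ℕ in atTop, (z n : ℝ) ≤ 1 * Real.log (Real.log n) ^ 2 := by
        filter_upwards [hz, (Real.tendsto_log_atTop.comp logloglogN).eventually_ge_atTop 1,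
          logloglogN.eventually_ge_atTop 1, loglogN.eventually_ge_atTop 1] with n h1 h2 h3 h4
        simp only [Function.comp] at h2
        have h5 : Real.log (Real.log (Real.log (n : ℝ))) ≤ Real.log (Real.log n) := by
          have := Real.log_le_sub_one_of_pos (show (0 : ℝ) < Real.log (Real.log n) by linarith)
          linarith
        have h6 : Real.log (Real.log n) * Real.log (Real.log (Real.log (n : ℝ))) /
            Real.log (Real.log (Real.log (Real.log (n : ℝ)))) ≤ Real.log (Real.log n) ^ 2 := by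
          rw [div_le_iff₀ (by linarith)]
          nlinarith
        have h7 : 0 ≤ Real.log (Real.log n) * Real.log (Real.log (Real.log (n : ℝ))) /
            Real.log (Real.log (Real.log (Real.log (n : ℝ)))) := by positivity
        nlinarith
      have hzv : ∀ᶠ n : ℕ in atTop, ∀ v ∈ quad3 n, ¬ val3 v < n → (z (val3 v) : ℝ) ≤
          c * (Real.log n * Real.log (Real.log n) / Real.log (Real.log (Real.log n))) := by
        obtain ⟨m1, hm1⟩ := eventually_atTop.1 (hz.and ((logloglogN.eventually_ge_atTop (Real.exp 1)).and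
          (loglogN.eventually_ge_atTop 1)))
        filter_upwards [eventually_ge_atTop m1, eventually_ge_atTop 64] with n h1 h2 v hv hvn
        obtain ⟨k1, k2, k3⟩ := hm1 (val3 v) (by omega)
        obtain ⟨g1, g2⟩ := loglog_val h2 hv
        have h3 := range_mono (by linarith) k2 g2
        refine k1.trans ?_
        exact mul_le_mul_of_nonneg_left h3 hc0.le
      have hF : ∀ᶠ n : ℕ in atTop, 0 ≤ (Real.log n * Real.log (Real.log n) / Real.log (Real.log (Real.log (n : ℝ)))) ∧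
          c * (Real.log n * Real.log (Real.log n) / Real.log (Real.log (Real.log (n : ℝ)))) ≤ Real.log n ^ 2 := by
        filter_upwards [logloglogN.eventually_ge_atTop 1, loglogN.eventually_ge_atTop 1,
          logN.eventually_ge_atTop 1] with n h2 h3 h4
        have h5 : Real.log (Real.log (n : ℝ)) ≤ Real.log n := by
          have := Real.log_le_sub_one_of_pos (show (0 : ℝ) < Real.log n by linarith)
          linarith
        have h6 : Real.log n * Real.log (Real.log (n : ℝ)) / Real.log (Real.log (Real.log (n : ℝ))) ≤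
            Real.log (n : ℝ) ^ 2 := by
          rw [div_le_iff₀ (by linarith)]
          nlinarith
        have h7 : 0 ≤ Real.log n * Real.log (Real.log (n : ℝ)) / Real.log (Real.log (Real.log (n : ℝ))) := by
          positivity
        exact ⟨h7, by nlinarith⟩
      have hmain : ∀ e : ℝ, 0 < e → e ≤ 1 / 4 → (e = min ε (1 / 4) ∨ e = 1 / 4) →
          ∀ᶠ n : ℕ in atTop, (Odd n ∧ Regular P n) → 2 * (n : ℝ) ^ (1 / 2 - e) ≤
            ∑ v ∈ big n, Pool.Agent.D0H15.GS.rho1 P z (val3 v) := by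
        intro e he he4 hcase
        apply low_big e he he4 P z
        have h0 : ∃ x1 x2 : ℝ, c ≤ x1 ∧ c ≤ x2 ∧
            (∃ n0 : ℕ, ∀ n : ℕ, n0 ≤ n → Odd n → True → ∃ S : Finset (ℕ × ℕ × ℕ × ℕ),
              (n : ℝ) ^ (1 - e / 2) ≤ (S.card : ℝ) ∧ ∀ x y z w : ℕ, (x, y, z, w) ∈ S →
              n = x ^ 2 + y ^ 2 + z ^ 2 + 4 * w ^ 2 ∧ ∀ q : ℕ, q.Prime → q ∣ 2 ^ x + 2 ^ y + 2 ^ z + 1 →
              (q : ℝ) ≤ x1 * (Real.log n * Real.log (Real.log n) / Real.log (Real.log (Real.log n))) →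
              q ≠ 2 ∧ ExcA n q) ∧
            (∃ n0 : ℕ, ∀ n : ℕ, n0 ≤ n → Odd n → True → ∃ S : Finset (ℕ × ℕ × ℕ × ℕ),
              (n : ℝ) ^ (1 - e / 2) ≤ (S.card : ℝ) ∧ ∀ x y z w : ℕ, (x, y, z, w) ∈ S →
              n = x ^ 2 + y ^ 2 + z ^ 2 + 4 * w ^ 2 ∧ ∀ q : ℕ, q.Prime → q ∣ 2 ^ x + 2 ^ y + 2 ^ z + 1 →
              (q : ℝ) ≤ x2 * (Real.log n * Real.log (Real.log n) / Real.log (Real.log (Real.log n))) →
              q ≠ 2 ∧ ExcB n q) := by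
          have kA : ∀ (e x1 : ℝ) (n0 : ℕ), (∀ n : ℕ, n0 ≤ n → Odd n →
              ∃ S : Finset (ℕ × ℕ × ℕ × ℕ), (n : ℝ) ^ (1 - e) ≤ (S.card : ℝ) ∧
              ∀ x y z w : ℕ, (x, y, z, w) ∈ S → n = x ^ 2 + y ^ 2 + z ^ 2 + 4 * w ^ 2 ∧
              ∀ q : ℕ, q.Prime → q ∣ 2 ^ x + 2 ^ y + 2 ^ z + 1 →
              (q : ℝ) ≤ x1 * (Real.log n * Real.log (Real.log n) / Real.log (Real.log (Real.log n))) →
              q ≠ 2 ∧ (Pool.Agent.N719.SP.ExcU n (orderOf (2 : ZMod q)) ∨ Pool.Agent.N719.SP.ExcT n q)) →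
              (∃ n0 : ℕ, ∀ n : ℕ, n0 ≤ n → Odd n → True → ∃ S : Finset (ℕ × ℕ × ℕ × ℕ),
              (n : ℝ) ^ (1 - e) ≤ (S.card : ℝ) ∧ ∀ x y z w : ℕ, (x, y, z, w) ∈ S →
              n = x ^ 2 + y ^ 2 + z ^ 2 + 4 * w ^ 2 ∧ ∀ q : ℕ, q.Prime → q ∣ 2 ^ x + 2 ^ y + 2 ^ z + 1 →
              (q : ℝ) ≤ x1 * (Real.log n * Real.log (Real.log n) / Real.log (Real.log (Real.log n))) →
              q ≠ 2 ∧ ExcA n q) := by
            intro e x1 n0 h
            refine ⟨n0, fun n hn hno _ => ?_⟩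
            obtain ⟨T, h1, h2⟩ := h n hn hno
            refine ⟨T, h1, fun x y z w hT => ?_⟩
            obtain ⟨g1, g2⟩ := h2 x y z w hT
            refine ⟨g1, fun q hq hqN hqc => ?_⟩
            obtain ⟨k1, k2⟩ := g2 q hq hqN hqc
            exact ⟨k1, Pool.Agent.N719.SP.exc_finalU n q k2⟩
          have kB : ∀ (e x1 : ℝ) (n0 : ℕ), (∀ n : ℕ, n0 ≤ n → Odd n →
              ∃ S : Finset (ℕ × ℕ × ℕ × ℕ), (n : ℝ) ^ (1 - e) ≤ (S.card : ℝ) ∧
              ∀ x y z w : ℕ, (x, y, z, w) ∈ S → n = x ^ 2 + y ^ 2 + z ^ 2 + 4 * w ^ 2 ∧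
              ∀ q : ℕ, q.Prime → q ∣ 2 ^ x + 2 ^ y + 2 ^ z + 1 →
              (q : ℝ) ≤ x1 * (Real.log n * Real.log (Real.log n) / Real.log (Real.log (Real.log n))) →
              q ≠ 2 ∧ (Pool.Agent.N719.SP.ExcE n (orderOf (2 : ZMod q)) ∨
                (¬ Pool.Agent.N719.SP.RegA n ∧ ¬ Pool.Agent.N719.SP.RegB n ∧
                  orderOf (2 : ZMod q) = 3 ^ (Pool.Agent.N719.SP.J n + 1)))) →
              (∃ n0 : ℕ, ∀ n : ℕ, n0 ≤ n → Odd n → True → ∃ S : Finset (ℕ × ℕ × ℕ × ℕ),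
              (n : ℝ) ^ (1 - e) ≤ (S.card : ℝ) ∧ ∀ x y z w : ℕ, (x, y, z, w) ∈ S →
              n = x ^ 2 + y ^ 2 + z ^ 2 + 4 * w ^ 2 ∧ ∀ q : ℕ, q.Prime → q ∣ 2 ^ x + 2 ^ y + 2 ^ z + 1 →
              (q : ℝ) ≤ x1 * (Real.log n * Real.log (Real.log n) / Real.log (Real.log (Real.log n))) →
              q ≠ 2 ∧ ExcB n q) := by
            intro e x1 n0 h
            refine ⟨n0, fun n hn hno _ => ?_⟩
            obtain ⟨T, h1, h2⟩ := h n hn hno
            refine ⟨T, h1, fun x y z w hT => ?_⟩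
            obtain ⟨g1, g2⟩ := h2 x y z w hT
            refine ⟨g1, fun q hq hqN hqc => ?_⟩
            obtain ⟨k1, k2⟩ := g2 q hq hqN hqc
            exact ⟨k1, Pool.Agent.N719.SP.exc_final n q hno hq k2⟩
          rcases hcase with h | h
          · rw [h]
            obtain ⟨n1, hA1⟩ := hA1
            obtain ⟨n3, hA3⟩ := hA3
            exact ⟨a1, a3, hca1, hca3, kA _ _ n1 hA1, kB _ _ n3 hA3⟩
          · rw [h]
            obtain ⟨n2, hA2⟩ := hA2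
            obtain ⟨n4, hA4⟩ := hA4
            exact ⟨a2, a4, hca2, hca4, kA _ _ n2 hA2, kB _ _ n4 hA4⟩
        obtain ⟨x1, x2, hx1, hx2, g1, g2⟩ := h0
        have h3 := core (e / 2) _ (fun _ => True) x1 x2 c hx1 hx2 g1 g2 P z hzv hF
        filter_upwards [h3] with n h4 hn
        exact h4 ⟨hn.1, hn.2, trivial⟩
      exact law_of hM 1 hzz ε _ hmain hε
    · intro hz
      -- range B
      have hzz : ∀ᶠ n : ℕ in atTop, (z n : ℝ) ≤ c * Real.log (Real.log n) ^ 2 := hz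
      have hzv : ∀ᶠ n : ℕ in atTop, ∀ v ∈ quad3 n, ¬ val3 v < n → (z (val3 v) : ℝ) ≤ c * Real.log n ^ 2 := by
        obtain ⟨m1, hm1⟩ := eventually_atTop.1 hz
        filter_upwards [eventually_ge_atTop m1, eventually_ge_atTop 64] with n h1 h2 v hv hvn
        have k1 := hm1 (val3 v) (by omega)
        obtain ⟨g1, g2⟩ := loglog_val h2 hv
        refine k1.trans ?_
        gcongr
      have hF : ∀ᶠ n : ℕ in atTop, 0 ≤ Real.log (n : ℝ) ^ 2 ∧ c * Real.log (n : ℝ) ^ 2 ≤ Real.log n ^ 2 := by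
        filter_upwards with n
        have : 0 ≤ Real.log (n : ℝ) ^ 2 := sq_nonneg _
        exact ⟨this, by nlinarith⟩
      have hmain : ∀ e : ℝ, 0 < e → e ≤ 1 / 4 → (e = min ε (1 / 4) ∨ e = 1 / 4) →
          ∀ᶠ n : ℕ in atTop, (Odd n ∧ Regular P n ∧
            ∀ l : ℕ, l.Prime → c * Real.log n < l → (l : ℝ) ≤ Real.log n ^ 2 → ¬ l ^ 2 ∣ n) →
            2 * (n : ℝ) ^ (1 / 2 - e) ≤ ∑ v ∈ big n, Pool.Agent.D0H15.GS.rho1 P z (val3 v) := by
        intro e he he4 hcase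
        apply low_big e he he4 P z
        have kA : ∀ (e x1 : ℝ) (n0 : ℕ), c ≤ x1 → (∀ n : ℕ, n0 ≤ n → Odd n →
            (∀ l : ℕ, l.Prime → x1 * Real.log n < l → (l : ℝ) ≤ (Real.log n) ^ 2 → ¬ l ^ 2 ∣ n) →
            ∃ S : Finset (ℕ × ℕ × ℕ × ℕ), (n : ℝ) ^ (1 - e) ≤ (S.card : ℝ) ∧
            ∀ x y z w : ℕ, (x, y, z, w) ∈ S → n = x ^ 2 + y ^ 2 + z ^ 2 + 4 * w ^ 2 ∧
            ∀ q : ℕ, q.Prime → q ∣ 2 ^ x + 2 ^ y + 2 ^ z + 1 → (q : ℝ) ≤ x1 * (Real.log n) ^ 2 →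
            q ≠ 2 ∧ (Pool.Agent.N719.SP.ExcU n (orderOf (2 : ZMod q)) ∨ Pool.Agent.N719.SP.ExcT n q)) →
            (∃ n0 : ℕ, ∀ n : ℕ, n0 ≤ n → Odd n →
            (∀ l : ℕ, l.Prime → c * Real.log n < l → (l : ℝ) ≤ (Real.log n) ^ 2 → ¬ l ^ 2 ∣ n) →
            ∃ S : Finset (ℕ × ℕ × ℕ × ℕ),
            (n : ℝ) ^ (1 - e) ≤ (S.card : ℝ) ∧ ∀ x y z w : ℕ, (x, y, z, w) ∈ S →
            n = x ^ 2 + y ^ 2 + z ^ 2 + 4 * w ^ 2 ∧ ∀ q : ℕ, q.Prime → q ∣ 2 ^ x + 2 ^ y + 2 ^ z + 1 →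
            (q : ℝ) ≤ x1 * (Real.log n) ^ 2 → q ≠ 2 ∧ ExcA n q) := by
          intro e x1 n0 hx1 h
          refine ⟨n0, fun n hn hno hl => ?_⟩
          have hlog : 0 ≤ Real.log (n : ℝ) := Real.log_natCast_nonneg n
          obtain ⟨T, h1, h2⟩ := h n hn hno (fun l hl1 hl2 hl3 =>
            hl l hl1 (lt_of_le_of_lt (mul_le_mul_of_nonneg_right hx1 hlog) hl2) hl3)
          refine ⟨T, h1, fun x y z w hT => ?_⟩
          obtain ⟨g1, g2⟩ := h2 x y z w hT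
          refine ⟨g1, fun q hq hqN hqc => ?_⟩
          obtain ⟨k1, k2⟩ := g2 q hq hqN hqc
          exact ⟨k1, Pool.Agent.N719.SP.exc_finalU n q k2⟩
        have kB : ∀ (e x1 : ℝ) (n0 : ℕ), c ≤ x1 → (∀ n : ℕ, n0 ≤ n → Odd n →
            (∀ l : ℕ, l.Prime → x1 * Real.log n < l → (l : ℝ) ≤ (Real.log n) ^ 2 → ¬ l ^ 2 ∣ n) →
            ∃ S : Finset (ℕ × ℕ × ℕ × ℕ), (n : ℝ) ^ (1 - e) ≤ (S.card : ℝ) ∧
            ∀ x y z w : ℕ, (x, y, z, w) ∈ S → n = x ^ 2 + y ^ 2 + z ^ 2 + 4 * w ^ 2 ∧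
            ∀ q : ℕ, q.Prime → q ∣ 2 ^ x + 2 ^ y + 2 ^ z + 1 → (q : ℝ) ≤ x1 * (Real.log n) ^ 2 →
            q ≠ 2 ∧ (Pool.Agent.N719.SP.ExcE n (orderOf (2 : ZMod q)) ∨
                (¬ Pool.Agent.N719.SP.RegA n ∧ ¬ Pool.Agent.N719.SP.RegB n ∧
                  orderOf (2 : ZMod q) = 3 ^ (Pool.Agent.N719.SP.J n + 1)))) →
            (∃ n0 : ℕ, ∀ n : ℕ, n0 ≤ n → Odd n →
            (∀ l : ℕ, l.Prime → c * Real.log n < l → (l : ℝ) ≤ (Real.log n) ^ 2 → ¬ l ^ 2 ∣ n) →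
            ∃ S : Finset (ℕ × ℕ × ℕ × ℕ),
            (n : ℝ) ^ (1 - e) ≤ (S.card : ℝ) ∧ ∀ x y z w : ℕ, (x, y, z, w) ∈ S →
            n = x ^ 2 + y ^ 2 + z ^ 2 + 4 * w ^ 2 ∧ ∀ q : ℕ, q.Prime → q ∣ 2 ^ x + 2 ^ y + 2 ^ z + 1 →
            (q : ℝ) ≤ x1 * (Real.log n) ^ 2 → q ≠ 2 ∧ ExcB n q) := by
          intro e x1 n0 hx1 h
          refine ⟨n0, fun n hn hno hl => ?_⟩
          have hlog : 0 ≤ Real.log (n : ℝ) := Real.log_natCast_nonneg n
          obtain ⟨T, h1, h2⟩ := h n hn hno (fun l hl1 hl2 hl3 =>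
            hl l hl1 (lt_of_le_of_lt (mul_le_mul_of_nonneg_right hx1 hlog) hl2) hl3)
          refine ⟨T, h1, fun x y z w hT => ?_⟩
          obtain ⟨g1, g2⟩ := h2 x y z w hT
          refine ⟨g1, fun q hq hqN hqc => ?_⟩
          obtain ⟨k1, k2⟩ := g2 q hq hqN hqc
          exact ⟨k1, Pool.Agent.N719.SP.exc_final n q hno hq k2⟩
        rcases hcase with h | h
        · rw [h]
          obtain ⟨n1, hB1⟩ := hB1
          obtain ⟨n3, hB3⟩ := hB3
          exact core (min ε (1 / 4) / 2) (fun n => Real.log n ^ 2)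
            (fun n => ∀ l : ℕ, l.Prime → c * Real.log n < l → (l : ℝ) ≤ Real.log n ^ 2 → ¬ l ^ 2 ∣ n)
            b1 b3 c hcb1 hcb3 (kA _ _ n1 hcb1 hB1) (kB _ _ n3 hcb3 hB3) P z hzv hF
        · rw [h]
          obtain ⟨n2, hB2⟩ := hB2
          obtain ⟨n4, hB4⟩ := hB4
          exact core (1 / 4 / 2) (fun n => Real.log n ^ 2)
            (fun n => ∀ l : ℕ, l.Prime → c * Real.log n < l → (l : ℝ) ≤ Real.log n ^ 2 → ¬ l ^ 2 ∣ n)
            b2 b4 c hcb2 hcb4 (kA _ _ n2 hcb2 hB2) (kB _ _ n4 hcb4 hB4) P z hzv hF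
      exact law_of hM c hzz ε _ hmain hε
  · rintro ⟨h41, h113, hP⟩ n
    left
    intro q hqP hq hq2 _ hexc
    rcases hexc with ⟨l, hl, hl5, hlo, -⟩ | ⟨-, -, h⟩ | ⟨-, -, h⟩
    · exact hP q hqP hq hq2 l hl hl5 hlo
    · exact h113 (h ▸ hqP)
    · exact h41 (h ▸ hqP)
  · have hle : ∀ (n q l : ℕ), q.Prime → q ≠ 2 → (q : ℝ) ≤ Real.log n ^ 2 → l ^ 2 ∣ orderOf (2 : ZMod q) →
        (l : ℝ) ≤ Real.log n := by
      intro n q l hq hq2 hqn hlo
      have : Fact q.Prime := ⟨hq⟩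
      have h20 : (2 : ZMod q) ≠ 0 := by
        intro h0
        have h3 : ((2 : ℕ) : ZMod q) = 0 := by exact_mod_cast h0
        rw [ZMod.natCast_eq_zero_iff] at h3
        exact hq2 ((Nat.prime_dvd_prime_iff_eq hq Nat.prime_two).1 h3)
      have h1 := hlo.trans (ZMod.orderOf_dvd_card_sub_one h20)
      have h2 := Nat.le_of_dvd (by have := hq.two_le; omega) h1
      have h3 : (l : ℝ) ^ 2 ≤ q := by exact_mod_cast h2.trans (Nat.sub_le _ _)
      have hlog : 0 ≤ Real.log (n : ℝ) := Real.log_natCast_nonneg n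
      exact (sq_le_sq₀ (Nat.cast_nonneg l) hlog).1 (h3.trans hqn)
    filter_upwards [logN.eventually_ge_atTop 7] with n h7 hn
    left
    intro q hqP hq hq2 hqn hexc
    rcases hn with ⟨h4, hn⟩ | ⟨h4, hn⟩
    · rcases hexc with ⟨l, hl, hl5, hlo, ⟨-, g1, g2⟩ | ⟨g0, -, -⟩⟩ | ⟨-, h, -⟩ | ⟨g0, -, -⟩
      · exact hn l hl g1 (hle n q l hq hq2 hqn hlo) g2
      · omega
      · refine hn 7 (by norm_num) (by norm_num) (by exact_mod_cast h7) ?_
        push_cast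
        omega
      · omega
    · rcases hexc with ⟨l, hl, hl5, hlo, ⟨g0, -, -⟩ | ⟨-, g1, g2⟩⟩ | ⟨g0, -, -⟩ | ⟨-, h, -⟩
      · omega
      · exact hn l hl hl5 g1 (hle n q l hq hq2 hqn hlo) g2
      · omega
      · refine hn 5 (by norm_num) le_rfl (by norm_num) ?_ ?_
        · push_cast
          linarith
        · push_cast
          omega

end Pool.Agent.Results.MP_f6c7cf_nt.GrowingSieveModels
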