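import Mathlib
import Pool.Agent.D0H86.PW.Main4
import Pool.Agent.D0H86.PW.O1
import Pool.Agent.D0H42.PW.N1
import Pool.Agent.D0H42.PW.N3
import Pool.Agent.D0H42.PW.Im
import Pool.Agent.D0H33.PW.N2
import Pool.Agent.D0H12.PW.G1
import Pool.Agent.D0H12.PW.Ex
import Pool.Agent.D0H2.PW.R2b
import Pool.Agent.D0H2.PW.Pe
import Pool.Agent.D0H30.PW.Sm
import Pool.Agent.D0H30.PW.Sp
import Pool.Agent.D0H9.PW.Dg

/-!
# The powers of two, a few of them perturbed at random

Question 1 asks for `n = x² + y² + z² + 4w²` with `2 ^ x + 2 ^ y + 2 ^ z + 1` prime, for every odd `n`.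

There is `δ < 1` such that for every `κ ∈ [0, 1]` there is a set `K` of exponents, with `N ^ (κ + o(1))`
elements below `N`, with the following property. Leave the powers `2 ^ k` with `k ∉ K` as they are, and replace
`2 ^ k` for `k ∈ K` by a random integer `a k` of `[2 ^ k, 2 ^ k + H k)`, where `2 ^ (δ k) ≤ H k ≤ 2 ^ k` for
large `k ∈ K`, uniformly and independently. Then almost surely every large odd `n` is
`x² + y² + z² + 4w²` with `a x + a y + a z + 1` prime, for at least `log n` and at least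
`n ^ (κ / 2 - γ)` quadruples `(x, y, z, w)`, for every `γ > 0` (`n` large). Already for `κ = 0`, when `K` has only
`N ^ o(1)` elements below `N`, all large odd `n` are represented; for `κ = 1` the number of quadruples is
`n ^ (1/2 - o(1))`. In the theorem `H k` may be arbitrary for `k ∉ K`, for instance `H k = 1`, which is the case
just described. In particular there is a sequence `b` with `b k = 2 ^ k` for all `k ∉ K` and
`2 ^ k ≤ b k ≤ 2 ^ k + 2 ^ (δ k)` for all `k`, for which all this holds.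

The primes are the true primes, and the theorem is for every large odd `n`. Before, this was known
(`SievedModels`, `GrowingSieveModels`) for the true powers of two and random primes.

Authors: helper86 (statement, assembly), helper2, helper9, helper12, helper23, helper30, helper33, helper42
(modules).

Method. Primes in the short intervals `[2 ^ u + s, 2 ^ u + s + H u)` (Hoheisel), the upper bound sieve for
pairs `T + s`, `T + s'` of primes, and Cauchy-Schwarz give: for a set `S` of at least `u ^ (1 - ε)` shifts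
the probability that `a u + s` is prime for some `s ∈ S` is at least `u ^ (-2 ε)`. The set `S` of the numbers
`a y + a z + 1` with `z ≤ y < u`, `n = u² + y² + z² + 4w²` for some `w`,
is as large as that for at least `n ^ (1/2 - ε)` numbers `u`, by the count of the representations in residue
classes (library). The set `K` is chosen at random too, with `k ∈ K` with probability `k ^ (κ k - 1)`, where
`κ k → κ` so slowly that `K` contains enough of these `u` for every `n` (a diagonal argument). Exposing the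
terms `a u`, `u ∈ K`, one after the other we get conditional trials, and Borel-Cantelli.
-/

set_option autoImplicit false

namespace Pool.Agent.Results.MP_f6c7cf_nt.PerturbedPowers

open Filter MeasureTheory ProbabilityTheory

/-- independent random integers `a k`, uniformly distributed on `[2 ^ k, 2 ^ k + H k)` -/
structure Model {Ω : Type} [MeasurableSpace Ω] (μ : Measure Ω) (a : ℕ → Ω → ℕ) (H : ℕ → ℕ) : Prop where
  meas : ∀ k, Measurable (a k)
  indep : iIndepFun a μ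
  unif : ∀ k j, μ.real {ω | a k ω = j} = if 2 ^ k ≤ j ∧ j < 2 ^ k + H k then ((H k : ℝ))⁻¹ else 0

/-- the quadruples `(x, y, z, w)` with `n = x² + y² + z² + 4w²` and `b x + b y + b z + 1` prime -/
def Quads (b : ℕ → ℕ) (n : ℕ) : Set (ℕ × ℕ × ℕ × ℕ) :=
  {v | n = v.1 ^ 2 + v.2.1 ^ 2 + v.2.2.1 ^ 2 + 4 * v.2.2.2 ^ 2 ∧
    (b v.1 + b v.2.1 + b v.2.2.1 + 1).Prime}

/-- every large odd `n` has at least `log n` such quadruples, and for every `γ > 0` every large odd `n` has at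
least `n ^ (κ / 2 - γ)` of them -/
def Law (κ : ℝ) (b : ℕ → ℕ) : Prop :=
  (∀ᶠ n : ℕ in atTop, Odd n → Real.log n ≤ (Quads b n).ncard) ∧
  ∀ γ : ℝ, 0 < γ → ∀ᶠ n : ℕ in atTop, Odd n → (n : ℝ) ^ (κ / 2 - γ) ≤ (Quads b n).ncard

/-- for every `η > 0` the set `K` has at most `N ^ (κ + η)` elements below `N`, for large `N` -/
def Size (κ : ℝ) (K : Set ℕ) : Prop :=
  ∀ η : ℝ, 0 < η → ∀ᶠ N : ℕ in atTop, ((K ∩ Set.Iio N).ncard : ℝ) ≤ (N : ℝ) ^ (κ + η)

theorem result : ∃ δ : ℝ, 0 < δ ∧ δ < 1 ∧ ∀ κ : ℝ, 0 ≤ κ → κ ≤ 1 → ∃ K : Set ℕ, Size κ K ∧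
    -- the random sequences
    (∀ H : ℕ → ℕ, (∀ k, H k ≤ 2 ^ k) → (∀ᶠ k : ℕ in atTop, k ∈ K → (2 : ℝ) ^ (δ * k) ≤ H k) →
      ∀ (Ω : Type) [MeasurableSpace Ω] (μ : Measure Ω) [IsProbabilityMeasure μ] (a : ℕ → Ω → ℕ),
        Model μ a H → ∀ᵐ ω ∂μ, Law κ (fun k => a k ω)) ∧
    -- they exist
    (∀ H : ℕ → ℕ, (∀ k, 1 ≤ H k) → ∃ μ : Measure (ℕ → ℕ), IsProbabilityMeasure μ ∧
      Model μ (fun k ω => ω k) H) ∧
    -- a sequence
    ∃ b : ℕ → ℕ, (∀ k, k ∉ K → b k = 2 ^ k) ∧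
      (∀ k, 2 ^ k ≤ b k ∧ (b k : ℝ) ≤ 2 ^ k + (2 : ℝ) ^ (δ * k)) ∧ Law κ b := by
  obtain ⟨δ, hδ, hδ1, h⟩ := Pool.Agent.D0H86.PW.rowD1
    (Pool.Agent.D0H42.PW.t_N3 Pool.Agent.D0H42.PW.t_N1 Pool.Agent.D0H33.PW.t_N2) Pool.Agent.D0H42.PW.t_IM
    (Pool.Agent.D0H86.PW.C1_of (Pool.Agent.D0H12.PW.GG.t_G1 Pool.Agent.D0H2.PW.t_R2B)
      Pool.Agent.D0H86.PW.t_O1)
  refine ⟨δ, hδ, hδ1, fun κ hκ0 hκ1 => ?_⟩
  obtain ⟨K, hK, h1, h2⟩ := Pool.Agent.D0H86.PW.main4 Pool.Agent.D0H2.PW.t_PE Pool.Agent.D0H30.PW.t_SP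
    Pool.Agent.D0H30.PW.t_SM Pool.Agent.D0H9.PW.t_DG Pool.Agent.D0H12.PW.t_EX δ hδ1 Pool.Agent.D0H86.PW.Suc1
    Pool.Agent.D0H86.PW.loc1 (fun b n => (Pool.Agent.D0H86.PW.Q1 b n).ncard)
    (fun b n F hF => Pool.Agent.D0H86.PW.count1 b n F hF) h κ hκ0 hκ1
  refine ⟨K, hK, ?_, ?_, h2⟩
  · intro H hH hHl Ω _ μ _ a hM
    exact h1 H hH hHl Ω μ a ⟨hM.meas, hM.indep, hM.unif⟩
  · intro H hH
    obtain ⟨μ, hμ, hM⟩ := Pool.Agent.D0H12.PW.t_EX H hH
    exact ⟨μ, hμ, ⟨hM.meas, hM.indep, hM.unif⟩⟩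

end Pool.Agent.Results.MP_f6c7cf_nt.PerturbedPowers
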