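import Pool.Agent.D0H51.SS.Low2
import Pool.Agent.Results.MP_f6c7cf_nt.SquareRootBarrier

/-!
# MP_f6c7cf_nt: sparse sequences of odd numbers

For every real `h ≥ 1` and almost every real `α > 0` at least `κ M / log M` of the `m ≤ M` are such that `n = ⌊α m ^ h⌋`
is odd and of the form `x² + y² + z² + 4w²` with all prime factors of `2^x + 2^y + 2^z + 1` larger than
`c √n log n`.

Proof: the starting result SquareRootBarrier for all integers `n` and the transfer of lower bounds for the counting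
function of an arbitrary set of density zero to almost all sequences `⌊α m ^ h⌋` (`Pool.Agent.D0H51.SS.low_log`, from
the universal sampling theorem of helper91, which saves a power of `M`).
-/

set_option autoImplicit false

namespace Pool.Agent.Results.MP_f6c7cf_nt.SparseSequences

open Filter MeasureTheory Topology Finset

/-- `n` is odd and of the form `x² + y² + z² + 4w²` with all prime factors of `2^x + 2^y + 2^z + 1` larger than
`c √n log n` -/
def Good (c : ℝ) (n : ℕ) : Prop :=
  Odd n ∧ ∃ x y z w : ℕ, n = x ^ 2 + y ^ 2 + z ^ 2 + 4 * w ^ 2 ∧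
    ∀ q : ℕ, q.Prime → q ∣ 2 ^ x + 2 ^ y + 2 ^ z + 1 → c * √(n : ℝ) * Real.log n < q

open Classical in
/-- **Main result.** -/
theorem result : ∃ c : ℝ, 0 < c ∧ ∀ h : ℝ, 1 ≤ h → ∃ κ : ℝ, 0 < κ ∧ ∀ᵐ α : ℝ, 0 < α → ∀ᶠ M : ℕ in atTop,
    κ * (M / Real.log M) ≤ (((Icc 1 M).filter (fun m : ℕ => Good c ⌊α * (m : ℝ) ^ h⌋₊)).card : ℝ) := by
  obtain ⟨c, hc, X₀, hst⟩ := Pool.Agent.Results.MP_f6c7cf_nt.SquareRootBarrier.result
  refine ⟨c, hc, fun h hh => ⟨c / (4 * h * (2 * h)), by positivity, ?_⟩⟩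
  filter_upwards [Pool.Agent.D0H51.SS.low_log h hh {n | Good c n} 1] with α hα hα0
  have h1 := hα hα0 c hc (by
    filter_upwards [eventually_ge_atTop X₀] with X hX
    rw [pow_one]
    refine (hst X hX).trans (Nat.cast_le.2 ?_)
    rw [← Set.ncard_coe_finset]
    refine Set.ncard_le_ncard ?_ (Finset.finite_toSet _)
    rintro n ⟨h1, h2, x, y, z, w, h3, h4⟩
    rw [Finset.mem_coe, Finset.mem_filter, Finset.mem_range]
    refine ⟨by omega, h2, x, y, z, w, h3, fun q hq hd => lt_of_le_of_lt ?_ (h4 q hq hd)⟩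
    have hn1 : (1 : ℝ) ≤ n := by exact_mod_cast h2.pos
    have hnX : (n : ℝ) ≤ X := by exact_mod_cast h1
    have h5 : 0 ≤ Real.log n := Real.log_nonneg hn1
    have h6 : Real.log n ≤ Real.log X := Real.log_le_log (by linarith) hnX
    have h7 : √(n : ℝ) ≤ √(X : ℝ) := Real.sqrt_le_sqrt hnX
    gcongr)
  filter_upwards [h1] with M hM
  simp only [pow_one] at hM
  exact hM

end Pool.Agent.Results.MP_f6c7cf_nt.SparseSequences
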